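import Pool.Agent.Lib.MP_12b84a_co.Ham

set_option autoImplicit false

namespace Pool.Agent.Lib.MP_12b84a_co

variable {p : ℕ} [Fact p.Prime]

lemma cross_all (A0 A1 A2 : ZMod p → Prop) (J k : ZMod p) (h2 : (2 : ZMod p) ≠ 0)
    (h3 : (3 : ZMod p) ≠ 0) (hJ : J ≠ 0) (hk : k ≠ 0) (hkJ : k ≠ J)
    (n0 : ¬ A0 (2 * J + 2 * k))
    (t12 : ∀ u, A1 u → u ≠ 2 * J → A2 u) (t1e : A1 (2 * J) → A0 (2 * k - 4 * J))
    (t21 : ∀ u, A2 u → u ≠ 0 → A1 u)
    (t0 : ∀ u, A0 u → u ≠ 2 * k - 4 * J → A0 (4 * k - 2 * J - u))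
    (t0e : A0 (2 * k - 4 * J) → A1 (2 * J))
    (u1 : ∀ u, A1 u → u ≠ 2 * k → A1 (2 * k - u)) (u1e : A1 (2 * k) → A2 (2 * J + 2 * k))
    (u20 : ∀ u, A2 u → u ≠ 2 * J + 2 * k → A0 u) (u2e : A2 (2 * J + 2 * k) → A1 (2 * k))
    (u02 : ∀ u, A0 u → u ≠ 2 * J → A2 u) (s1 : A2 0) (s2 : A0 (2 * J)) :
    (∀ u, u ≠ 2 * J + 2 * k → A0 u) ∧ (∀ u, u ≠ 0 → A1 u) ∧ (∀ u, u ≠ 2 * J → A2 u) := by
  have c2J : 2 * J ≠ 0 := mul_ne_zero h2 hJ
  have c2k : 2 * k ≠ 0 := mul_ne_zero h2 hk
  have c4J : 2 * (2 * J) ≠ 0 := mul_ne_zero h2 c2J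
  have c6J : 3 * (2 * J) ≠ 0 := mul_ne_zero h3 c2J
  have cd : 2 * (k - J) ≠ 0 := mul_ne_zero h2 (sub_ne_zero.2 hkJ)
  have step : ∀ S S0 : ZMod p → Prop, (∀ u, S u → S (2 * k - u)) → (∀ u, S u → S0 u) →
      (∀ u, S0 u → S0 (4 * k - 2 * J - u)) → (∀ u, S0 u → S u) → S 0 → ∀ u, S u := by
    intro S S0 a b c d h0
    refine transl_closed S cd (fun x hx => ?_) h0
    have := d _ (c _ (b _ (a _ hx)))
    rwa [show 4 * k - 2 * J - (2 * k - x) = x + 2 * (k - J) by ring] at this
  have four : A0 (2 * k - 4 * J) ∧ A1 (2 * k) := by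
    by_cases hd : k = 2 * J
    · constructor
      · have := u20 0 s1 (fun h => c6J (by linear_combination -h - 2 * hd))
        rwa [show 2 * k - 4 * J = 0 by linear_combination 2 * hd]
      · have e1 := t0 _ s2 (fun h => c2J (by linear_combination h + 2 * hd))
        rw [show 4 * k - 2 * J - 2 * J = 2 * k by linear_combination 2 * hd] at e1
        exact t21 _ (u02 _ e1 (fun h => cd (by linear_combination h))) c2k
    · have cd2 : 2 * (k - 2 * J) ≠ 0 := mul_ne_zero h2 (sub_ne_zero.2 hd)
      have fw : A1 (2 * J) → A1 (2 * k) := by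
        intro h
        have e1 := u1 _ h (fun h => cd (by linear_combination -h))
        have e2 := t12 _ e1 (fun h => cd2 (by linear_combination h))
        have e3 := u20 _ e2 (fun h => c4J (by linear_combination -h))
        have e4 := t0 _ e3 (fun h => c2J (by linear_combination h))
        rw [show 4 * k - 2 * J - (2 * k - 2 * J) = 2 * k by ring] at e4
        exact t21 _ (u02 _ e4 (fun h => cd (by linear_combination h))) c2k
      have bw : A1 (2 * k) → A1 (2 * J) := by
        intro h
        have e1 := t12 _ h (fun h => cd (by linear_combination h))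
        have e2 := u20 _ e1 (fun h => c2J (by linear_combination -h))
        have e3 := t0 _ e2 (fun h => c4J (by linear_combination h))
        have e4 := u02 _ e3 (fun h => cd2 (by linear_combination h))
        have e5 := t21 _ e4 (fun h => cd (by linear_combination h))
        have e6 := u1 _ e5 (fun h => c2J (by linear_combination -h))
        rwa [show 2 * k - (4 * k - 2 * J - 2 * k) = 2 * J by ring] at e6
      have main : A0 (2 * k - 4 * J) := by
        by_contra hn
        have m1 : ¬ A1 (2 * J) := fun h => hn (t1e h)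
        have m2 : ¬ A1 (2 * k) := fun h => m1 (bw h)
        have m3 : ¬ A2 (2 * J + 2 * k) := fun h => m2 (u2e h)
        have b20 : ∀ u, A2 u → A0 u := fun u h => u20 u h (fun e => m3 (e ▸ h))
        have hb : ∀ u, (A1 u ∨ u = 0 ∨ u = 2 * J ∨ u = 2 * k - 2 * J ∨ u = 2 * k) →
            (A0 u ∨ u = 2 * k - 2 * J ∨ u = 2 * k) := by
          rintro u (h | rfl | rfl | h | h)
          · exact Or.inl (b20 _ (t12 u h (fun e => m1 (e ▸ h))))
          · exact Or.inl (b20 _ s1)
          · exact Or.inl s2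
          · exact Or.inr (Or.inl h)
          · exact Or.inr (Or.inr h)
        have hall := step (fun u => A1 u ∨ u = 0 ∨ u = 2 * J ∨ u = 2 * k - 2 * J ∨ u = 2 * k)
          (fun u => A0 u ∨ u = 2 * k - 2 * J ∨ u = 2 * k) ?_ hb ?_ ?_ (Or.inr (Or.inl rfl))
          (2 * J + 2 * k)
        · rcases hb _ hall with h | h | h
          · exact n0 h
          · exact c4J (by linear_combination h)
          · exact c2J (by linear_combination h)
        · rintro u (h | h | h | h | h)
          · exact Or.inl (u1 u h (fun e => m2 (e ▸ h)))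
          · right; right; right; right; linear_combination -h
          · right; right; right; left; linear_combination -h
          · right; right; left; linear_combination -h
          · right; left; linear_combination -h
        · rintro u (h | h | h)
          · exact Or.inl (t0 u h (fun e => hn (e ▸ h)))
          · right; right; linear_combination -h
          · right; left; linear_combination -h
        · rintro u (h | h | h)
          · by_cases e : u = 2 * J
            · exact Or.inr (Or.inr (Or.inl e))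
            · by_cases e' : u = 0
              · exact Or.inr (Or.inl e')
              · exact Or.inl (t21 u (u02 u h e) e')
          · exact Or.inr (Or.inr (Or.inr (Or.inl h)))
          · exact Or.inr (Or.inr (Or.inr (Or.inr h)))
      exact ⟨main, fw (t0e main)⟩
  obtain ⟨f1, f2⟩ := four
  have f3 := t0e f1
  have f4 := u1e f2
  have g20 : ∀ u, A2 u → (A0 u ∨ u = 2 * J + 2 * k) := fun u h => by
    by_cases e : u = 2 * J + 2 * k
    · exact Or.inr e
    · exact Or.inl (u20 u h e)
  have g21 : ∀ u, A2 u → (A1 u ∨ u = 0) := fun u h => by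
    by_cases e : u = 0
    · exact Or.inr e
    · exact Or.inl (t21 u h e)
  have hb : ∀ u, (A1 u ∨ u = 0) → (A0 u ∨ u = 2 * J + 2 * k) := by
    rintro u (h | rfl)
    · by_cases e : u = 2 * J
      · exact Or.inl (e ▸ s2)
      · exact g20 u (t12 u h e)
    · exact g20 _ s1
  have hall := step (fun u => A1 u ∨ u = 0) (fun u => A0 u ∨ u = 2 * J + 2 * k) ?_ hb ?_ ?_
    (Or.inr rfl)
  · refine ⟨fun u hu => (hb u (hall u)).resolve_right hu, fun u hu => (hall u).resolve_right hu,
      fun u hu => ?_⟩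
    rcases hall u with h | rfl
    · exact t12 u h hu
    · exact s1
  · rintro u (h | rfl)
    · by_cases e : u = 2 * k
      · right; linear_combination -e
      · exact Or.inl (u1 u h e)
    · left; rwa [sub_zero]
  · rintro u (h | rfl)
    · by_cases e : u = 2 * k - 4 * J
      · right; linear_combination -e
      · exact Or.inl (t0 u h e)
    · left; rwa [show 4 * k - 2 * J - (2 * J + 2 * k) = 2 * k - 4 * J by ring]
  · rintro u (h | rfl)
    · by_cases e : u = 2 * J
      · exact Or.inl (e ▸ f3)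
      · exact g21 u (u02 u h e)
    · exact g21 _ f4

lemma belt_stub (B1 B2 : ZMod p → Prop) (a b : ZMod p) (hab : a ≠ b) (n2 : ¬ B2 0)
    (t12 : ∀ x, B1 x → x ≠ a → B2 (x - a)) (t21 : ∀ z, B2 z → z ≠ -b → B1 (z + b))
    (s : B2 (-a)) : B1 a := by
  by_contra hn
  refine n2 (transl_closed B2 (sub_ne_zero.2 hab.symm) (fun z hz => ?_) s 0)
  by_cases e : z = -b
  · rwa [show z + (b - a) = -a by linear_combination e]
  · have h1 := t21 z hz e
    have := t12 _ h1 (fun e' => hn (e' ▸ h1))
    rwa [show z + b - a = z + (b - a) by ring] at this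

lemma belt_all (B1 B2 : ZMod p → Prop) (a b : ZMod p) (hab : a ≠ b) (n2 : ¬ B2 0)
    (t12 : ∀ x, B1 x → x ≠ a → B2 (x - a)) (t21 : ∀ z, B2 z → z ≠ -a → B1 (z + a))
    (u12 : ∀ x, B1 x → x ≠ b → B2 (x - b)) (u21 : ∀ z, B2 z → z ≠ -b → B1 (z + b))
    (s : B2 (-a)) (s' : B2 (-b)) : (∀ x, x ≠ 0 → B1 x) ∧ (∀ z, z ≠ 0 → B2 z) := by
  have ha := belt_stub B1 B2 a b hab n2 t12 u21 s
  have hb := belt_stub B1 B2 b a hab.symm n2 u12 t21 s'
  have hall : ∀ z, B2 z ∨ z = 0 := by
    refine transl_closed (fun z => B2 z ∨ z = 0) (sub_ne_zero.2 hab.symm) ?_ (Or.inr rfl)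
    rintro z (hz | rfl)
    · by_cases e : z = -b
      · left; rwa [show z + (b - a) = -a by linear_combination e]
      · by_cases e' : z + b = a
        · right; linear_combination e'
        · left
          have := t12 _ (u21 z hz e) e'
          rwa [show z + b - a = z + (b - a) by ring] at this
    · left; rw [zero_add]; exact t12 _ hb hab.symm
  refine ⟨fun x hx => ?_, fun z hz => (hall z).resolve_right hz⟩
  rcases hall (x - a) with h | h
  · have := t21 _ h (fun e => hx (by linear_combination e))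
    rwa [sub_add_cancel] at this
  · rwa [show x = a by linear_combination h]

lemma loop_all (B : ZMod p → Prop) (a b : ZMod p) (hab : a ≠ b)
    (r1 : ∀ x, B x → x ≠ a → B (a - x)) (r2 : ∀ x, B x → x ≠ b → B (b - x))
    (s : B a) (s' : B b) : ∀ x, x ≠ 0 → B x := by
  have aux : ∀ c, (∀ x, B x → x ≠ c → B (c - x)) → B c →
      ∀ x, (B x ∨ x = 0) → (B (c - x) ∨ c - x = 0) := by
    rintro c r hc x (h | rfl)
    · by_cases e : x = c
      · right; linear_combination -e
      · exact Or.inl (r x h e)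
    · left; rwa [sub_zero]
  have hall : ∀ x, B x ∨ x = 0 := by
    refine transl_closed (fun z => B z ∨ z = 0) (sub_ne_zero.2 hab.symm) (fun x hx => ?_)
      (Or.inr rfl)
    have := aux b r2 s' _ (aux a r1 s _ hx)
    rwa [show b - (a - x) = x + (b - a) by ring] at this
  exact fun x hx => (hall x).resolve_right hx

lemma loop_neg (B : ZMod p → Prop) (a : ZMod p) (ha : a ≠ 0) (n0 : ¬ B 0)
    (r0 : ∀ x, B x → B (-x)) (r1 : ∀ x, B x → x ≠ a → B (a - x)) {x0 : ZMod p} (s : B x0) :
    ∀ x, x ≠ 0 → B x := by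
  have h1 : B a := by
    by_contra hn
    refine n0 (transl_closed B ha (fun x hx => ?_) s 0)
    have h := r0 x hx
    have := r1 _ h (fun e => hn (e ▸ h))
    rwa [show a - -x = x + a by ring] at this
  have hall : ∀ x, B x ∨ x = 0 := by
    refine transl_closed (fun z => B z ∨ z = 0) ha ?_ (Or.inr rfl)
    rintro x (h | rfl)
    · by_cases e : -x = a
      · right; linear_combination -e
      · left
        have := r1 _ (r0 x h) e
        rwa [show a - -x = x + a by ring] at this
    · left; rwa [zero_add]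
  exact fun x hx => (hall x).resolve_right hx

lemma belt_neg (B1 B2 : ZMod p → Prop) (a : ZMod p) (ha : 2 * a ≠ 0)
    (t12 : ∀ x, B1 x → x ≠ a → B2 (x - a)) (t21 : ∀ z, B2 z → z ≠ -a → B1 (z + a))
    (r1 : ∀ x, B1 x → B1 (-x)) (r2 : ∀ x, B2 x → B2 (-x)) (s1 : B1 a) (s2 : B2 (-a)) :
    (∀ x, x ≠ 0 → B1 x) ∧ (∀ z, z ≠ 0 → B2 z) := by
  have c21 : ∀ z, (B2 z ∨ z = 0) → (B1 (z + a) ∨ z + a = 0) := by
    rintro z (h | rfl)
    · by_cases e : z = -a
      · right; linear_combination e
      · exact Or.inl (t21 z h e)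
    · left; rwa [zero_add]
  have c12 : ∀ x, (B1 x ∨ x = 0) → (B2 (x - a) ∨ x - a = 0) := by
    rintro x (h | rfl)
    · by_cases e : x = a
      · right; linear_combination e
      · exact Or.inl (t12 x h e)
    · left; rwa [zero_sub]
  have ng : ∀ B : ZMod p → Prop, (∀ x, B x → B (-x)) → ∀ x, (B x ∨ x = 0) → (B (-x) ∨ -x = 0) := by
    rintro B r x (h | h)
    · exact Or.inl (r x h)
    · right; linear_combination -h
  have hall : ∀ z, B2 z ∨ z = 0 := by
    refine transl_closed (fun z => B2 z ∨ z = 0) ha (fun z hz => ?_) (Or.inr rfl)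
    have := ng B2 r2 _ (c12 _ (ng B1 r1 _ (c21 z hz)))
    rwa [show -(-(z + a) - a) = z + 2 * a by ring] at this
  refine ⟨fun x hx => ?_, fun z hz => (hall z).resolve_right hz⟩
  have := c21 _ (hall (x - a))
  rw [sub_add_cancel] at this
  exact this.resolve_right hx

end Pool.Agent.Lib.MP_12b84a_co
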