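import Mathlib

set_option autoImplicit false

namespace Pool.Agent.Lib.MP_12b84a_co

open SimpleGraph

/-- Two maps connect a type: every set closed under both that holds a base point is everything. -/
def Conn {V : Type*} (A B : V → V) : Prop :=
  ∃ v0 : V, ∀ K : V → Prop, (∀ v, K v → K (A v)) → (∀ v, K v → K (B v)) → K v0 → ∀ v, K v

lemma Conn.symm {V : Type*} {A B : V → V} (h : Conn A B) : Conn B A := by
  obtain ⟨v0, h⟩ := h
  exact ⟨v0, fun K h1 h2 h0 => h K h2 h1 h0⟩

lemma Conn.ne {V : Type*} [Fintype V] {A B : V → V} (h : Conn A B)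
    (hA : ∀ v, A (A v) = v) (hB : ∀ v, B (B v) = v) (hc : 2 < Fintype.card V) (v : V) :
    A v ≠ B v := by
  classical
  intro hv
  obtain ⟨v0, h⟩ := h
  have cA : ∀ w, (w = v ∨ w = A v) → (A w = v ∨ A w = A v) := by
    rintro w (rfl | rfl)
    · exact Or.inr rfl
    · exact Or.inl (hA _)
  have cB : ∀ w, (w = v ∨ w = A v) → (B w = v ∨ B w = A v) := by
    rintro w (rfl | rfl)
    · exact Or.inr hv.symm
    · left; rw [hv]; exact hB _
  by_cases h0 : v0 = v ∨ v0 = A v
  · have hall := h _ cA cB h0
    have : (Finset.univ : Finset V) ⊆ {v, A v} := by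
      intro w _
      simpa using hall w
    have h1 := Finset.card_le_card this
    have h2 := Finset.card_le_two (a := v) (b := A v)
    rw [Finset.card_univ] at h1
    omega
  · have hall := h (fun w => ¬ (w = v ∨ w = A v))
      (fun w hw h' => hw (by simpa [hA] using cA _ h'))
      (fun w hw h' => hw (by simpa [hB] using cB _ h')) h0
    exact hall v (Or.inl rfl)

lemma ham_of_conn {V : Type*} [Fintype V] [DecidableEq V] (G : SimpleGraph V) {A B : V → V}
    (h : Conn A B) (hne : ∀ v, A v ≠ B v) (hG : ∀ v w, G.Adj v w ↔ (w = A v ∨ w = B v)) :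
    G.IsHamiltonian := by
  intro _
  obtain ⟨v0, h⟩ := h
  have hcyc : G.IsCycles := by
    intro v _
    have : G.neighborSet v = {A v, B v} := by
      ext w
      simp [hG]
    rw [this]
    exact Set.ncard_pair (hne v)
  have hreach : ∀ v, G.Reachable v0 v := by
    refine h (fun v => G.Reachable v0 v) ?_ ?_ (Reachable.refl _)
    · intro v hv
      exact hv.trans (Adj.reachable ((hG _ _).2 (Or.inl rfl)))
    · intro v hv
      exact hv.trans (Adj.reachable ((hG _ _).2 (Or.inr rfl)))
  obtain ⟨p, hp, hv⟩ := hcyc.exists_cycle_toSubgraph_verts_eq_connectedComponentSupp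
    (c := G.connectedComponentMk v0) (v := v0) (by simp) ⟨A v0, (hG _ _).2 (Or.inl rfl)⟩
  refine ⟨v0, p, ⟨hp, ?_⟩⟩
  have hall : ∀ w, w ∈ p.support := by
    intro w
    rw [← p.mem_verts_toSubgraph, hv]
    simp only [ConnectedComponent.mem_supp_iff, ConnectedComponent.eq]
    exact (hreach w).symm
  refine hp.isPath_tail.isHamiltonian_of_mem ?_
  intro w
  rw [Walk.support_tail_of_not_nil _ hp.not_nil]
  by_cases hw : w = v0
  · subst hw
    exact Walk.end_mem_tail_support hp.not_nil
  · have := hall w
    rw [← Walk.cons_tail_support] at this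
    exact (List.mem_cons.1 this).resolve_left hw

/-- A family of fixed-point-free involutions, distinct at every vertex, is an edge colouring. -/
lemma colouring {V C : Type*} [Fintype V] [DecidableEq V] [Fintype C] [Nonempty C]
    (T : C → V → V) (hinv : ∀ i v, T i (T i v) = v) (hne : ∀ i v, T i v ≠ v)
    (hinj : ∀ i j v, T i v = T j v → i = j) (hc : Fintype.card C + 1 = Fintype.card V) :
    ∃ c : V → V → C, (∀ v w, c v w = c w v) ∧ (∀ v w i, w ≠ v → (c v w = i ↔ w = T i v)) := by
  classical
  have hsurj : ∀ v w, w ≠ v → ∃ i, T i v = w := by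
    intro v w hw
    let g : C → {w // w ≠ v} := fun i => ⟨T i v, hne i v⟩
    have hg : Function.Injective g := fun i j h => hinj i j v (congrArg Subtype.val h)
    have hb : Function.Bijective g := by
      rw [Fintype.bijective_iff_injective_and_card]
      refine ⟨hg, ?_⟩
      rw [Fintype.card_subtype_compl, Fintype.card_subtype_eq]
      omega
    obtain ⟨i, hi⟩ := hb.2 ⟨w, hw⟩
    exact ⟨i, congrArg Subtype.val hi⟩
  let c : V → V → C := fun v w => if h : ∃ i, T i v = w then h.choose else Classical.arbitrary C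
  have hcs : ∀ v w i, w ≠ v → (c v w = i ↔ w = T i v) := by
    intro v w i hw
    have h := hsurj v w hw
    have hc' : T (c v w) v = w := by
      simp only [c, dif_pos h]
      exact h.choose_spec
    constructor
    · rintro rfl
      exact hc'.symm
    · intro h'
      exact hinj _ _ v (hc'.trans h')
  refine ⟨c, ?_, hcs⟩
  intro v w
  by_cases hw : w = v
  · rw [hw]
  · rw [hcs v w _ hw]
    have := (hcs w v (c w v) (Ne.symm hw)).1 rfl
    have h2 := hinv (c w v) w
    rw [← this] at h2
    exact h2.symm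

theorem fin_of_family {V C : Type*} [Fintype V] [Fintype C] (N M : ℕ)
    (hV : Fintype.card V = N) (hC : Fintype.card C = M) (hNM : M + 1 = N)
    (T : C → V → V) (hinv : ∀ i v, T i (T i v) = v) (hne : ∀ i v, T i v ≠ v)
    (hinj : ∀ i j v, T i v = T j v → i = j) (b1 b2 : C → C) (i0 : C)
    (hgood : ∀ i j, j ≠ i → j ≠ b1 i → j ≠ b2 i → Conn (T i) (T j))
    (h0 : ∀ j, j ≠ i0 → Conn (T i0) (T j)) :
    ∃ c : Fin N → Fin N → Fin M,
      (∀ v w, c v w = c w v) ∧
      (∀ (v : Fin N) (i : Fin M), ∃! w : Fin N, w ≠ v ∧ c v w = i) ∧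
      (∀ i : Fin M, {j : Fin M | j ≠ i ∧
        ¬ (SimpleGraph.fromRel (fun v w : Fin N => c v w = i ∨ c v w = j)).IsHamiltonian}.ncard ≤ 2) ∧
      (∃ i : Fin M, ∀ j : Fin M, j ≠ i →
        (SimpleGraph.fromRel (fun v w : Fin N => c v w = i ∨ c v w = j)).IsHamiltonian) := by
  classical
  let eV := Fintype.equivFinOfCardEq hV
  let eC := Fintype.equivFinOfCardEq hC
  let T' : Fin M → Fin N → Fin N := fun i v => eV (T (eC.symm i) (eV.symm v))
  have : Nonempty (Fin M) := ⟨eC i0⟩
  have hinv' : ∀ i v, T' i (T' i v) = v := by intro i v; simp [T', hinv]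
  have hne' : ∀ i v, T' i v ≠ v := by
    intro i v h
    apply hne (eC.symm i) (eV.symm v)
    apply eV.injective
    simpa [T'] using h
  have hinj' : ∀ i j v, T' i v = T' j v → i = j := by
    intro i j v h
    exact eC.symm.injective (hinj _ _ _ (eV.injective h))
  obtain ⟨c, hsym, hc⟩ := colouring T' hinv' hne' hinj' (by simpa using hNM)
  have key : ∀ i j : Fin M, j ≠ i → Conn (T (eC.symm i)) (T (eC.symm j)) →
      (SimpleGraph.fromRel (fun v w : Fin N => c v w = i ∨ c v w = j)).IsHamiltonian := by
    intro i j hij h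
    have h' : Conn (T' i) (T' j) := by
      obtain ⟨v0, h⟩ := h
      refine ⟨eV v0, fun K h1 h2 h0 v => ?_⟩
      have := h (fun v => K (eV v)) (fun v hv => by simpa [T'] using h1 _ hv)
        (fun v hv => by simpa [T'] using h2 _ hv) h0 (eV.symm v)
      simpa using this
    refine ham_of_conn _ h' (fun v hv => hij (hinj' _ _ v hv).symm) ?_
    intro v w
    rw [fromRel_adj, hsym w v, or_self]
    constructor
    · rintro ⟨hvw, h⟩
      rwa [hc v w i hvw.symm, hc v w j hvw.symm] at h
    · intro h
      have hw : w ≠ v := by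
        rcases h with rfl | rfl
        · exact hne' _ _
        · exact hne' _ _
      exact ⟨hw.symm, by rwa [hc v w i hw, hc v w j hw]⟩
  refine ⟨c, hsym, ?_, ?_, eC i0, ?_⟩
  · intro v i
    refine ⟨T' i v, ⟨hne' i v, (hc v _ i (hne' i v)).2 rfl⟩, ?_⟩
    rintro w ⟨hw, h⟩
    exact (hc v w i hw).1 h
  · intro i
    have hsub : {j : Fin M | j ≠ i ∧
        ¬ (SimpleGraph.fromRel (fun v w : Fin N => c v w = i ∨ c v w = j)).IsHamiltonian} ⊆
        {eC (b1 (eC.symm i)), eC (b2 (eC.symm i))} := by
      rintro j ⟨hj, hn⟩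
      by_contra hcon
      simp only [Set.mem_insert_iff, Set.mem_singleton_iff, not_or] at hcon
      apply hn
      refine key i j hj (hgood _ _ (fun h => hj (eC.symm.injective h)) ?_ ?_)
      · intro h
        apply hcon.1
        rw [← h]; simp
      · intro h
        apply hcon.2
        rw [← h]; simp
    refine (Set.ncard_le_ncard hsub (Set.toFinite _)).trans ?_
    exact (Set.ncard_insert_le _ _).trans (by simp)
  · intro j hj
    refine key _ j hj ?_
    rw [Equiv.symm_apply_apply]
    exact h0 _ (fun h => hj (by rw [← h]; simp))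

lemma transl_closed {p : ℕ} [Fact p.Prime] (S : ZMod p → Prop) {b : ZMod p} (hb : b ≠ 0)
    (h : ∀ x, S x → S (x + b)) {x0 : ZMod p} (h0 : S x0) (y : ZMod p) : S y := by
  have hn : ∀ n : ℕ, S (x0 + n * b) := by
    intro n
    induction n with
    | zero => simpa using h0
    | succ n ih =>
      have := h _ ih
      rwa [Nat.cast_succ, add_mul, one_mul, ← add_assoc]
  have := hn ((y - x0) / b).val
  rwa [ZMod.natCast_zmod_val, div_mul_cancel₀ _ hb, add_sub_cancel] at this

end Pool.Agent.Lib.MP_12b84a_co
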