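import Pool.Agent.Lib.MP_12b84a_co.Closed

set_option autoImplicit false

namespace Pool.Agent.Lib.MP_12b84a_co

open Sum

variable {p : ℕ} [Fact p.Prime]

abbrev W (p : ℕ) := (Fin 3 × ZMod p) ⊕ Bool

def ok : W p → Prop
  | inl v => v.2 ≠ 0
  | inr _ => True

def ff (m : Fin 3 → ZMod p) (q : Fin 3) (j : ZMod p) : W p → W p
  | inl v =>
    if v.1 = q then
      (if v.2 = j then inr false else if v.2 = 2 * j then inl (q + 1, 2 * (m q * j))
        else inl (q, 2 * j - v.2))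
    else if v.1 = q + 1 then
      (if v.2 = 2 * (m q * j) then inl (q, 2 * j)
        else inl (q + 2, m (q + 1) * (v.2 - 2 * (m q * j))))
    else
      (if v.2 = m (q + 1) * -(2 * (m q * j)) then inr true
        else inl (q + 1, (m (q + 1))⁻¹ * v.2 + 2 * (m q * j)))
  | inr false => inl (q, j)
  | inr true => inl (q + 2, m (q + 1) * -(2 * (m q * j)))

def ng : W p → W p
  | inl v => inl (v.1, -v.2)
  | inr b => inr (!b)

lemma q10 : ∀ q : Fin 3, q + 1 ≠ q := by decide
lemma q20 : ∀ q : Fin 3, q + 2 ≠ q := by decide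
lemma q21 : ∀ q : Fin 3, q + 2 ≠ q + 1 := by decide
lemma q11 : ∀ q : Fin 3, q + 1 + 1 = q + 2 := by decide
lemma q12 : ∀ q : Fin 3, q + 1 + 2 = q := by decide
lemma q2p1 : ∀ q : Fin 3, q + 2 + 1 = q := by decide
lemma qtri : ∀ q r : Fin 3, r = q ∨ r = q + 1 ∨ r = q + 2 := by decide

variable (m : Fin 3 → ZMod p) (q : Fin 3) (j : ZMod p)

lemma f0 (x : ZMod p) : ff m q j (inl (q, x)) =
    if x = j then inr false else if x = 2 * j then inl (q + 1, 2 * (m q * j))
      else inl (q, 2 * j - x) := by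
  simp [ff]

lemma f1 (x : ZMod p) : ff m q j (inl (q + 1, x)) =
    if x = 2 * (m q * j) then inl (q, 2 * j)
      else inl (q + 2, m (q + 1) * (x - 2 * (m q * j))) := by
  simp [ff]

lemma f2 (hb : m (q + 1) ≠ 0) (z : ZMod p) : ff m q j (inl (q + 2, m (q + 1) * z)) =
    if z = -(2 * (m q * j)) then inr true else inl (q + 1, z + 2 * (m q * j)) := by
  simp only [ff, q20, q21, if_false, mul_right_inj' hb, inv_mul_cancel_left₀ hb]

lemma fF : ff m q j (inr false) = inl (q, j) := rfl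
lemma fT : ff m q j (inr true) = inl (q + 2, m (q + 1) * -(2 * (m q * j))) := rfl

lemma W_cases (hb : m (q + 1) ≠ 0) (v : W p) : (∃ x, v = inl (q, x)) ∨ (∃ x, v = inl (q + 1, x)) ∨
    (∃ z, v = inl (q + 2, m (q + 1) * z)) ∨ v = inr false ∨ v = inr true := by
  rcases v with ⟨r, x⟩ | b
  · rcases qtri q r with rfl | rfl | rfl
    · exact Or.inl ⟨x, rfl⟩
    · exact Or.inr (Or.inl ⟨x, rfl⟩)
    · exact Or.inr (Or.inr (Or.inl ⟨(m (q + 1))⁻¹ * x, by rw [mul_inv_cancel_left₀ hb]⟩))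
  · cases b <;> simp

lemma ff_spec (hm : ∀ q, m q ≠ 0) (h2 : (2 : ZMod p) ≠ 0) (hj : j ≠ 0) (v : W p) (hv : ok v) :
    ok (ff m q j v) ∧ ff m q j (ff m q j v) = v ∧ ff m q j v ≠ v := by
  have c1 : 2 * j ≠ 0 := mul_ne_zero h2 hj
  have c2 : 2 * (m q * j) ≠ 0 := mul_ne_zero h2 (mul_ne_zero (hm q) hj)
  have c3 : 2 * j ≠ j := fun h => hj (by linear_combination h)
  rcases W_cases m q (hm _) v with ⟨x, rfl⟩ | ⟨x, rfl⟩ | ⟨z, rfl⟩ | rfl | rfl
  · have hx : x ≠ 0 := hv
    rw [f0]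
    split_ifs with h h'
    · exact ⟨trivial, by rw [fF, h], by simp⟩
    · exact ⟨c2, by rw [f1, if_pos rfl, h'], by simp⟩
    · refine ⟨sub_ne_zero.2 (Ne.symm h'), ?_, ?_⟩
      · rw [f0, if_neg (fun e => h (by linear_combination -e)),
          if_neg (fun e => hx (by linear_combination -e)), sub_sub_cancel]
      · intro e
        have e' : 2 * j - x = x := by simpa using e
        exact mul_ne_zero h2 (sub_ne_zero.2 h) (by linear_combination -e')
  · have hx : x ≠ 0 := hv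
    rw [f1]
    split_ifs with h
    · exact ⟨c1, by rw [f0, if_neg c3, if_pos rfl, h], by simp [(q10 q).symm]⟩
    · refine ⟨mul_ne_zero (hm _) (sub_ne_zero.2 h), ?_, by simp⟩
      rw [f2 m q j (hm _), if_neg (fun e => hx (by linear_combination e)), sub_add_cancel]
  · have hz : z ≠ 0 := right_ne_zero_of_mul hv
    rw [f2 m q j (hm _)]
    split_ifs with h
    · exact ⟨trivial, by rw [fT, h], by simp⟩
    · refine ⟨fun e => h (eq_neg_of_add_eq_zero_left e), ?_, by simp [(q21 q).symm]⟩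
      rw [f1, if_neg (fun e => hz (by linear_combination e)), add_sub_cancel_right]
  · exact ⟨hj, by rw [fF, f0, if_pos rfl], by simp [fF]⟩
  · exact ⟨mul_ne_zero (hm _) (neg_ne_zero.2 c2), by rw [fT, f2 m q j (hm _), if_pos rfl],
      by simp [fT]⟩

lemma ng_spec (h2 : (2 : ZMod p) ≠ 0) (v : W p) (hv : ok v) :
    ok (ng v) ∧ ng (ng v) = v ∧ ng v ≠ v := by
  rcases v with ⟨r, x⟩ | b
  · have hx : x ≠ 0 := hv
    refine ⟨neg_ne_zero.2 hx, by simp [ng], fun e => ?_⟩
    have e' : -x = x := by simpa [ng] using e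
    exact mul_ne_zero h2 hx (by linear_combination -e')
  · cases b <;> simp [ng, ok]

variable {m q j}

section closure
variable {K : W p → Prop} (hK : ∀ v, K v → K (ff m q j v))
include hK

lemma k0 (x : ZMod p) (h : K (inl (q, x))) (hx : x ≠ 2 * j) : K (inl (q, 2 * j - x)) := by
  by_cases e : x = j
  · rwa [show 2 * j - x = x by linear_combination -2 * e]
  · have := hK _ h
    rwa [f0, if_neg e, if_neg hx] at this

lemma k0c (h : K (inl (q, j))) : K (inr false) := by
  have := hK _ h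
  rwa [f0, if_pos rfl] at this

lemma k0e (hj : j ≠ 0) (h : K (inl (q, 2 * j))) : K (inl (q + 1, 2 * (m q * j))) := by
  have := hK _ h
  rwa [f0, if_neg (fun e => hj (by linear_combination e)), if_pos rfl] at this

lemma k1e (h : K (inl (q + 1, 2 * (m q * j)))) : K (inl (q, 2 * j)) := by
  have := hK _ h
  rwa [f1, if_pos rfl] at this

lemma k12 (x : ZMod p) (h : K (inl (q + 1, x))) (hx : x ≠ 2 * (m q * j)) :
    K (inl (q + 2, m (q + 1) * (x - 2 * (m q * j)))) := by
  have := hK _ h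
  rwa [f1, if_neg hx] at this

lemma k21 (hb : m (q + 1) ≠ 0) (z : ZMod p) (h : K (inl (q + 2, m (q + 1) * z)))
    (hz : z ≠ -(2 * (m q * j))) : K (inl (q + 1, z + 2 * (m q * j))) := by
  have := hK _ h
  rwa [f2 m q j hb, if_neg hz] at this

lemma kT (h : K (inr true)) : K (inl (q + 2, m (q + 1) * -(2 * (m q * j)))) := hK _ h

lemma kF (h : K (inr false)) : K (inl (q, j)) := hK _ h

end closure

lemma finish (hb : m (q + 1) ≠ 0) {K : W p → Prop} (h0 : ∀ x, x ≠ 0 → K (inl (q, x)))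
    (h1 : ∀ x, x ≠ 0 → K (inl (q + 1, x))) (h2 : ∀ z, z ≠ 0 → K (inl (q + 2, m (q + 1) * z)))
    (hF : K (inr false)) (hT : K (inr true)) (v : W p) (hv : ok v) : K v := by
  rcases W_cases m q hb v with ⟨x, rfl⟩ | ⟨x, rfl⟩ | ⟨z, rfl⟩ | rfl | rfl
  · exact h0 x hv
  · exact h1 x hv
  · exact h2 z (right_ne_zero_of_mul hv)
  · exact hF
  · exact hT

lemma conn_same (hm : ∀ q, m q ≠ 0) (h2 : (2 : ZMod p) ≠ 0) {k : ZMod p} (hj : j ≠ 0)
    (hjk : j ≠ k) {K : W p → Prop} (hok : ∀ v, K v → ok v)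
    (hA : ∀ v, K v → K (ff m q j v)) (hB : ∀ v, K v → K (ff m q k v)) (hT : K (inr true))
    (v : W p) (hv : ok v) : K v := by
  have hJ : 2 * (m q * j) ≠ 2 * (m q * k) := fun e =>
    hjk (mul_left_cancel₀ (hm q) (mul_left_cancel₀ h2 e))
  have c2 : 2 * (m q * j) ≠ 0 := mul_ne_zero h2 (mul_ne_zero (hm q) hj)
  have n2 : ¬ K (inl (q + 2, m (q + 1) * 0)) := fun h => hok _ h (mul_zero _)
  have sj := belt_stub (fun x => K (inl (q + 1, x))) (fun z => K (inl (q + 2, m (q + 1) * z))) _ _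
    hJ n2 (k12 hA) (k21 hB (hm _)) (kT hA hT)
  have sk := belt_stub (fun x => K (inl (q + 1, x))) (fun z => K (inl (q + 2, m (q + 1) * z))) _ _
    hJ.symm n2 (k12 hB) (k21 hA (hm _)) (kT hB hT)
  obtain ⟨b1, b2⟩ := belt_all (fun x => K (inl (q + 1, x)))
    (fun z => K (inl (q + 2, m (q + 1) * z))) _ _ hJ n2 (k12 hA) (k21 hA (hm _)) (k12 hB)
    (k21 hB (hm _)) (kT hA hT) (kT hB hT)
  have b0 := loop_all (fun x => K (inl (q, x))) (2 * j) (2 * k)
    (fun e => hjk (mul_left_cancel₀ h2 e)) (k0 hA) (k0 hB) (k1e hA sj) (k1e hB sk)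
  exact finish (hm _) b0 b1 b2 (k0c hA (b0 j hj)) hT v hv

lemma conn_neg (hm : ∀ q, m q ≠ 0) (h2 : (2 : ZMod p) ≠ 0) (hj : j ≠ 0)
    {K : W p → Prop} (hok : ∀ v, K v → ok v)
    (hN : ∀ v, K v → K (ng v)) (hA : ∀ v, K v → K (ff m q j v)) (hT : K (inr true))
    (v : W p) (hv : ok v) : K v := by
  have hF : K (inr false) := hN _ hT
  have c1 : 2 * j ≠ 0 := mul_ne_zero h2 hj
  have c2 : 2 * (m q * j) ≠ 0 := mul_ne_zero h2 (mul_ne_zero (hm q) hj)
  have b0 := loop_neg (fun x => K (inl (q, x))) (2 * j) c1 (fun h => hok _ h rfl)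
    (fun x h => hN _ h) (k0 hA) (kF hA hF)
  obtain ⟨b1, b2⟩ := belt_neg (fun x => K (inl (q + 1, x)))
    (fun z => K (inl (q + 2, m (q + 1) * z))) _ (mul_ne_zero h2 c2) (k12 hA) (k21 hA (hm _))
    (fun x h => hN _ h) (fun x h => by have := hN _ h; rwa [mul_neg]) (k0e hA hj (b0 _ c1))
    (kT hA hT)
  exact finish (hm _) b0 b1 b2 hF hT v hv

lemma conn_cross (hm : ∀ q, m q ≠ 0) (hm3 : 3 * (m q * m (q + 1) * m (q + 2)) = -1)
    (h2 : (2 : ZMod p) ≠ 0) (h3 : (3 : ZMod p) ≠ 0) {k : ZMod p} (hj : j ≠ 0) (hk : k ≠ 0)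
    (hjk : k ≠ m q * j) {K : W p → Prop} (hok : ∀ v, K v → ok v)
    (hA : ∀ v, K v → K (ff m q j v)) (hB : ∀ v, K v → K (ff m (q + 1) k v)) (hT : K (inr true))
    (v : W p) (hv : ok v) : K v := by
  have hb := hm (q + 1)
  have hc := hm (q + 2)
  have hbc := mul_ne_zero hc hb
  have B12 := k12 hB
  have B21 := k21 hB (hm _)
  have B0e := k0e hB hk
  have B1e := k1e hB
  have BT := kT hB hT
  rw [q11] at B12 B21 B0e B1e BT
  rw [q12] at B12 B21 BT
  set a := m q
  set b := m (q + 1)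
  set c := m (q + 2)
  have e2j : c * (b * (2 * k - 4 * (a * j) - 2 * (a * j)) - 2 * (b * k)) = 2 * j := by
    linear_combination (-2 * j) * hm3
  obtain ⟨r0, r1, r2⟩ := cross_all
    (fun u => K (inl (q, c * (b * (u - 2 * (a * j)) - 2 * (b * k)))))
    (fun u => K (inl (q + 1, u))) (fun u => K (inl (q + 2, b * (u - 2 * (a * j)))))
    (a * j) k h2 h3 (mul_ne_zero (hm q) hj) hk hjk
    (fun h => hok _ h (by show _ = _; ring)) (k12 hA)
    (fun h => by rw [e2j]; exact k1e hA h)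
    (fun u h hu => by
      have := k21 hA hb _ h (fun e => hu (by linear_combination e))
      rwa [sub_add_cancel] at this)
    (fun u h hu => by
      have := k0 hA _ h (fun e => hu (mul_left_cancel₀ hbc (by linear_combination e - e2j)))
      rwa [show 2 * j - c * (b * (u - 2 * (a * j)) - 2 * (b * k)) =
        c * (b * (4 * k - 2 * (a * j) - u - 2 * (a * j)) - 2 * (b * k)) by
          linear_combination (2 * j) * hm3] at this)
    (fun h => by rw [e2j] at h; exact k0e hA hj h)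
    (k0 hB)
    (fun h => by
      have := B0e h
      rwa [show 2 * (b * k) = b * (2 * (a * j) + 2 * k - 2 * (a * j)) by ring] at this)
    (fun u h hu => B12 _ h (fun e => hu (mul_left_cancel₀ hb (by linear_combination e))))
    (fun h => B1e (by
      rwa [show 2 * (b * k) = b * (2 * (a * j) + 2 * k - 2 * (a * j)) by ring]))
    (fun u h hu => by
      have := B21 _ h (fun e => hu (mul_left_cancel₀ hb (by linear_combination e)))
      rwa [sub_add_cancel] at this)
    (by have := kT hA hT; rwa [zero_sub])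
    (by rwa [sub_self, mul_zero, zero_sub])
  have b0 : ∀ x, x ≠ 0 → K (inl (q, x)) := by
    intro x hx
    have := r0 ((c * b)⁻¹ * x + 2 * (a * j) + 2 * k) (fun e => hx (by
      have e' : (c * b)⁻¹ * x = 0 := by linear_combination e
      exact (mul_eq_zero.1 e').resolve_left (inv_ne_zero hbc)))
    rwa [show c * (b * ((c * b)⁻¹ * x + 2 * (a * j) + 2 * k - 2 * (a * j)) - 2 * (b * k)) = x by
      field_simp; ring] at this
  refine finish hb b0 r1 (fun z hz => ?_) (k0c hA (b0 j hj)) hT v hv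
  have := r2 (z + 2 * (a * j)) (fun e => hz (by linear_combination e))
  rwa [add_sub_cancel_right] at this

lemma cross_ne (hm : ∀ q, m q ≠ 0) (h2 : (2 : ZMod p) ≠ 0) (hj : j ≠ 0) (k : ZMod p) (v : W p) :
    ff m q j v ≠ ff m (q + 1) k v := by
  have c2 : 2 * (m q * j) ≠ 0 := mul_ne_zero h2 (mul_ne_zero (hm q) hj)
  have g0 := f0 m (q + 1) k
  have g1 := f1 m (q + 1) k
  have g2 := f2 m (q + 1) k (hm _)
  rw [q11] at g0 g1 g2
  rw [q12] at g1 g2
  have n1 := q10 q
  have n2 := q20 q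
  have n3 := q21 q
  rcases W_cases m q (hm _) v with ⟨x, rfl⟩ | ⟨x, rfl⟩ | ⟨z, rfl⟩ | rfl | rfl
  · have := g2 ((m (q + 2))⁻¹ * x)
    rw [mul_inv_cancel_left₀ (hm _)] at this
    rw [f0, this]
    split_ifs <;> simp [n2.symm, n3.symm]
  · rw [f1, g0]
    split_ifs with h1 h2' h3 h4 h5
    · simp
    · simp [n2.symm]
    · simp [n1.symm]
    · simp
    · intro e
      have e' : m (q + 1) * (x - 2 * (m q * j)) = 2 * (m (q + 1) * k) := by simpa using e
      exact mul_ne_zero (hm (q + 1)) c2 (by linear_combination -e' + m (q + 1) * h5)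
    · simp [n3]
  · rw [f2 m q j (hm _), g1]
    split_ifs with h1 h2' h3
    · simp
    · simp
    · intro e
      have e' : z + 2 * (m q * j) = 2 * k := by simpa using e
      exact mul_ne_zero (hm (q + 1)) c2 (by linear_combination m (q + 1) * e' - h3)
    · simp [n1]
  · simp [fF, n1.symm]
  · rw [fT, fT, q12]
    simp [n2]

end Pool.Agent.Lib.MP_12b84a_co
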